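import Pool.Agent.H629.TA.Stm

/-! Project TA (helper629): S_GF (helper675). -/

set_option autoImplicit false

namespace Pool.Agent.H675.TA.GF

open Finset Pool.Agent.H629.TA

theorem pow_bd (m : ℕ) : ∃ B : ℝ, 0 ≤ B ∧ ∀ z : ℝ, 0 ≤ z → z ≤ 4 →
    (1 + z) ^ m ≤ 1 + m * z + B * z ^ 2 := by
  induction m with
  | zero =>
    refine ⟨0, le_rfl, fun z _ _ => ?_⟩
    simp
  | succ m ih =>
    obtain ⟨B, hB, h⟩ := ih
    refine ⟨m + 5 * B, by positivity, fun z h0 h4 => ?_⟩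
    have h1 := h z h0 h4
    have h2 := mul_le_mul_of_nonneg_right h1 (by linarith : 0 ≤ 1 + z)
    have h3 : B * z ^ 2 * z ≤ B * z ^ 2 * 4 := mul_le_mul_of_nonneg_left h4 (by positivity)
    rw [pow_succ]
    push_cast
    nlinarith

theorem t_GF : S_GF := by
  intro m δ hm hδ
  obtain ⟨B, hB, hpow⟩ := pow_bd m
  have hm1 : (1 : ℝ) ≤ m := by exact_mod_cast hm
  obtain ⟨K, hK⟩ : ∃ K : ℝ, K = 46 + (8 + 16 * B) + 2 * (m + δ) + (2 * m + δ) := ⟨_, rfl⟩
  have hK0 : 0 ≤ K := by rw [hK]; positivity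
  refine ⟨K, 1, hK0, one_pos, ?_⟩
  intro k hk
  have hk2 : (2 : ℝ) ≤ k := by exact_mod_cast hk
  have hk0 : (0 : ℝ) < k := by linarith
  obtain ⟨L, hL⟩ : ∃ L, L = tot m δ k := ⟨_, rfl⟩
  have hLd : L = 2 * m * ((k : ℝ) - 1) + k * δ := hL
  rw [← hL]
  have hLm : (m : ℝ) * k ≤ L := by rw [hLd]; nlinarith
  have hLk : (k : ℝ) ≤ L := by nlinarith
  have hLu : L ≤ (2 * m + δ) * k := by rw [hLd]; nlinarith
  have hL0 : 0 < L := by linarith
  obtain ⟨y, hy⟩ : ∃ y : ℝ, y = 1 / (k : ℝ) := ⟨_, rfl⟩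
  have hy0 : 0 < y := by rw [hy]; positivity
  have hyk : y * k = 1 := by rw [hy]; field_simp
  have hy1 : y ≤ 1 := by nlinarith
  obtain ⟨χ, hχ⟩ : ∃ χ, χ = chi m δ := ⟨_, rfl⟩
  have hχd : χ = m / (2 * m + δ) := hχ
  have hχ0 : 0 ≤ χ := by rw [hχd]; positivity
  have hχ1 : 2 * χ ≤ 1 := by
    rw [hχd, ← mul_div_assoc, div_le_one (by positivity)]
    linarith
  rw [← hχ]
  have hLy : 1 / L ≤ y := by
    rw [hy]
    exact one_div_le_one_div_of_le hk0 hLk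
  have hmL : (m : ℝ) / L ≤ y := by
    rw [div_le_iff₀ hL0]
    nlinarith
  have hmL0 : 0 ≤ (m : ℝ) / L := by positivity
  have hmL2 : (m : ℝ) / L ≤ χ * y + 2 * y ^ 2 := by
    have e1 : (m : ℝ) / L = χ * y + (m : ℝ) / L * (2 * m * y / (2 * m + δ)) := by
      rw [hχd]
      have h2 : L + 2 * m = (2 * m + δ) * k := by rw [hLd]; ring
      field_simp
      nlinarith
    have h3 : 2 * m * y / (2 * m + δ) ≤ y := by
      rw [div_le_iff₀ (by positivity)]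
      nlinarith
    have h4 : (m : ℝ) / L * (2 * m * y / (2 * m + δ)) ≤ y * y :=
      mul_le_mul hmL h3 (by positivity) hy0.le
    nlinarith
  have eK : ∀ A : ℝ, A / (k : ℝ) ^ 2 = A * y ^ 2 := fun A => by rw [hy]; ring
  have ek : ∀ A : ℝ, A / (k : ℝ) = A * y := fun A => by rw [hy]; ring
  have hy2 : 0 ≤ y ^ 2 := by positivity
  have hal : al m δ k = 1 + 2 * (m / L) + (m * (m - 1)) / L ^ 2 := by
    unfold al
    rw [← hL]
    ring
  have hmm : (m * ((m : ℝ) - 1)) / L ^ 2 ≤ y ^ 2 := by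
    have h5 : (m * ((m : ℝ) - 1)) / L ^ 2 ≤ ((m : ℝ) / L) ^ 2 := by
      rw [div_pow]
      exact div_le_div_of_nonneg_right (by nlinarith) (by positivity)
    exact h5.trans (pow_le_pow_left₀ hmL0 hmL 2)
  have hmm0 : 0 ≤ (m * ((m : ℝ) - 1)) / L ^ 2 :=
    div_nonneg (mul_nonneg (by linarith) (by linarith)) (by positivity)
  have hal1 : 1 ≤ al m δ k := by rw [hal]; linarith
  have hal2 : al m δ k ≤ 1 + 2 * χ * y + 5 * y ^ 2 := by rw [hal]; linarith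
  refine ⟨by linarith, ?_, ?_, hal1, ?_, ?_, ?_, ?_⟩
  · refine hLu.trans (mul_le_mul_of_nonneg_right ?_ hk0.le)
    rw [hK]
    linarith
  · intro r hr
    have hr4 : (r : ℝ) ≤ 4 := by exact_mod_cast hr
    have hr0 : (0 : ℝ) ≤ r := Nat.cast_nonneg _
    have hz0 : 0 ≤ (r : ℝ) / L := by positivity
    have hz1 : (r : ℝ) / L ≤ 4 * y := by
      calc (r : ℝ) / L = r * (1 / L) := by ring
        _ ≤ 4 * y := mul_le_mul hr4 hLy (by positivity) (by norm_num)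
    have h6 := hpow (r / L) hz0 (by linarith)
    have h7 : B * (r / L) ^ 2 ≤ B * (4 * y) ^ 2 :=
      mul_le_mul_of_nonneg_left (pow_le_pow_left₀ hz0 hz1 2) hB
    have h8 : (m : ℝ) * (r / L) = r * (m / L) := by ring
    have h9 : (r : ℝ) * (m / L) ≤ r * (χ * y + 2 * y ^ 2) := mul_le_mul_of_nonneg_left hmL2 hr0
    have h10 : (r : ℝ) * (2 * y ^ 2) ≤ 4 * (2 * y ^ 2) :=
      mul_le_mul_of_nonneg_right hr4 (by positivity)
    rw [ek, eK]
    have h11 : (8 + 16 * B) * y ^ 2 ≤ K * y ^ 2 := by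
      refine mul_le_mul_of_nonneg_right ?_ hy2
      rw [hK]
      linarith
    calc (1 + (r : ℝ) / L) ^ m ≤ 1 + m * (r / L) + B * (r / L) ^ 2 := h6
      _ ≤ 1 + r * (χ * y + 2 * y ^ 2) + B * (4 * y) ^ 2 := by linarith
      _ = 1 + r * χ * y + r * (2 * y ^ 2) + 16 * B * y ^ 2 := by ring
      _ ≤ 1 + r * χ * y + 4 * (2 * y ^ 2) + 16 * B * y ^ 2 := by linarith
      _ = 1 + r * χ * y + (8 + 16 * B) * y ^ 2 := by ring
      _ ≤ _ := by linarith
  · rw [ek, eK]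
    have h11 : 5 * y ^ 2 ≤ K * y ^ 2 := by
      refine mul_le_mul_of_nonneg_right ?_ hy2
      rw [hK]
      linarith
    linarith
  · rw [ek, eK]
    have h11 : 46 * y ^ 2 ≤ K * y ^ 2 := by
      refine mul_le_mul_of_nonneg_right ?_ hy2
      rw [hK]
      linarith
    have h12 : al m δ k ^ 2 ≤ (1 + 2 * χ * y + 5 * y ^ 2) ^ 2 :=
      pow_le_pow_left₀ (by linarith) hal2 2
    have h13 : 2 * χ * y + 5 * y ^ 2 ≤ 6 * y := by
      have i1 : 2 * χ * y ≤ 1 * y := mul_le_mul_of_nonneg_right hχ1 hy0.le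
      have i2 : y * y ≤ y * 1 := mul_le_mul_of_nonneg_left hy1 hy0.le
      have i3 : y ^ 2 = y * y := sq y
      rw [i3]
      linarith
    have h14 : (2 * χ * y + 5 * y ^ 2) ^ 2 ≤ (6 * y) ^ 2 :=
      pow_le_pow_left₀ (by positivity) h13 2
    have i4 : (1 + 2 * χ * y + 5 * y ^ 2) ^ 2 =
        1 + 4 * χ * y + 10 * y ^ 2 + (2 * χ * y + 5 * y ^ 2) ^ 2 := by ring
    have i5 : (6 * y) ^ 2 = 36 * y ^ 2 := by ring
    linarith
  · unfold be
    rw [← hL]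
    have e5 : (m : ℝ) * (m - 1) / L ^ 2 = (m * ((m : ℝ) - 1)) / L ^ 2 := rfl
    exact mul_nonneg (by positivity) (by linarith)
  · unfold be
    rw [← hL, ek]
    have h15 : (m : ℝ) / L + m * (m - 1) / L ^ 2 ≤ 2 * y := by
      have i2 : y * y ≤ y * 1 := mul_le_mul_of_nonneg_left hy1 hy0.le
      have i3 : y ^ 2 = y * y := sq y
      rw [i3] at hmm
      linarith
    have h16 := mul_le_mul_of_nonneg_left h15 (by positivity : (0 : ℝ) ≤ m + δ)
    have h17 : (m + δ) * (2 * y) ≤ K * y := by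
      have i6 : (46 + (8 + 16 * B) + 2 * (m + δ) + (2 * m + δ)) * y =
        (m + δ) * (2 * y) + (46 + (8 + 16 * B) + (2 * m + δ)) * y := by ring
      have i7 : 0 ≤ (46 + (8 + 16 * B) + (2 * m + δ)) * y := by positivity
      rw [hK, i6]
      linarith
    linarith

end Pool.Agent.H675.TA.GF
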