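import Pool.Agent.H629.TA.Stm

/-! Project TA (helper629): S_RC (helper675). -/

set_option autoImplicit false

namespace Pool.Agent.H675.TA.RC

open Finset Pool.Agent.H629.TA

theorem bern (t x : ℝ) (ht : 0 ≤ t) (hx : 0 ≤ x) : 1 + t * x - t / 2 * x ^ 2 ≤ (1 + x) ^ t := by
  have h1 : 0 < 1 + x := by linarith
  rw [Real.rpow_def_of_pos h1]
  have h2 := Real.add_one_le_exp (Real.log (1 + x) * t)
  have h3 := Real.le_log_one_add_of_nonneg hx
  have h4 : x - x ^ 2 / 2 ≤ 2 * x / (x + 2) := by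
    rw [le_div_iff₀ (by linarith)]
    nlinarith [pow_nonneg hx 3]
  have h5 : (x - x ^ 2 / 2) * t ≤ Real.log (1 + x) * t :=
    mul_le_mul_of_nonneg_right (h4.trans h3) ht
  nlinarith

theorem key (τ t K : ℝ) (hτ : 0 ≤ τ) (ht : τ < t) (k : ℝ) (hk : 0 < k)
    (hkK : 2 * K + t ≤ (t - τ) * k) :
    (1 + τ / k + K / k ^ 2) * k ^ t + (t - τ) / 2 * k ^ (t - 1) ≤ (k + 1) ^ t := by
  have ht0 : 0 ≤ t := by linarith
  have h1 : (k + 1) ^ t = k ^ t * (1 + 1 / k) ^ t := by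
    rw [← Real.mul_rpow hk.le (by positivity)]
    congr 1
    field_simp
  have h2 : k ^ (t - 1) = k ^ t * (1 / k) := by
    rw [Real.rpow_sub_one hk.ne']
    ring
  have hkt : 0 < k ^ t := Real.rpow_pos_of_pos hk t
  have h3 := bern t (1 / k) ht0 (by positivity)
  have h4 : 1 + τ / k + K / k ^ 2 + (t - τ) / 2 * (1 / k) ≤
      1 + t * (1 / k) - t / 2 * (1 / k) ^ 2 := by
    have h5 : t * (1 / k) - t / 2 * (1 / k) ^ 2 - (τ / k + K / k ^ 2 + (t - τ) / 2 * (1 / k)) =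
        ((t - τ) * k - (2 * K + t)) / (2 * k ^ 2) := by
      field_simp
      ring
    have h6 : 0 ≤ ((t - τ) * k - (2 * K + t)) / (2 * k ^ 2) :=
      div_nonneg (by linarith) (by positivity)
    linarith
  rw [h1, h2]
  calc (1 + τ / k + K / k ^ 2) * k ^ t + (t - τ) / 2 * (k ^ t * (1 / k))
      = k ^ t * (1 + τ / k + K / k ^ 2 + (t - τ) / 2 * (1 / k)) := by ring
    _ ≤ k ^ t * (1 + t * (1 / k) - t / 2 * (1 / k) ^ 2) := mul_le_mul_of_nonneg_left h4 hkt.le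
    _ ≤ k ^ t * (1 + 1 / k) ^ t := mul_le_mul_of_nonneg_left h3 hkt.le

/-- the comparison sequence -/
noncomputable def BB (τ t K C : ℝ) : ℕ → ℝ
  | 0 => C
  | j + 1 => (1 + τ / ((j + 2 : ℕ) : ℝ) + K / ((j + 2 : ℕ) : ℝ) ^ 2) * BB τ t K C j +
      C * ((j + 2 : ℕ) : ℝ) ^ (t - 1)

theorem t_RC : S_RC := by
  intro τ t K C hτ ht hK hC
  have ht0 : 0 < t := by linarith
  have hη0 : 0 < t - τ := by linarith
  obtain ⟨k0, hk0⟩ := exists_nat_ge ((2 * K + t) / (t - τ))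
  rw [div_le_iff₀ hη0] at hk0
  obtain ⟨A, hA⟩ : ∃ A, A = 2 * C / (t - τ) + ∑ j ∈ range (k0 + 1), |BB τ t K C j| := ⟨_, rfl⟩
  have hS0 : 0 ≤ ∑ j ∈ range (k0 + 1), |BB τ t K C j| := sum_nonneg fun j _ => abs_nonneg _
  have hC0 : 0 ≤ 2 * C / (t - τ) := by positivity
  have hA0 : 0 ≤ A := by rw [hA]; linarith
  refine ⟨A, hA0, ?_⟩
  intro u hu hu2 hrec
  have h1 : ∀ j, u (j + 2) ≤ BB τ t K C j := by
    intro j
    induction j with
    | zero => exact hu2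
    | succ j ih =>
      refine (hrec (j + 2) (by omega)).trans ?_
      have h2 : BB τ t K C (j + 1) = (1 + τ / ((j + 2 : ℕ) : ℝ) + K / ((j + 2 : ℕ) : ℝ) ^ 2) *
        BB τ t K C j + C * ((j + 2 : ℕ) : ℝ) ^ (t - 1) := rfl
      rw [h2]
      have h3 : 0 ≤ 1 + τ / ((j + 2 : ℕ) : ℝ) + K / ((j + 2 : ℕ) : ℝ) ^ 2 := by positivity
      have := mul_le_mul_of_nonneg_left ih h3
      linarith
  have h2 : ∀ j, j ≤ k0 → u (j + 2) ≤ A := by
    intro j hj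
    have h3 := single_le_sum (f := fun j => |BB τ t K C j|) (fun j _ => abs_nonneg _)
      (mem_range.2 (Nat.lt_succ_of_le hj))
    have h4 := le_abs_self (BB τ t K C j)
    have h5 := h1 j
    rw [hA]
    linarith
  have h3 : ∀ j : ℕ, (1 : ℝ) ≤ ((j + 2 : ℕ) : ℝ) ^ t := by
    intro j
    refine Real.one_le_rpow ?_ ht0.le
    exact_mod_cast (by omega : 1 ≤ j + 2)
  have h4 : ∀ j : ℕ, u (j + 2) ≤ A * ((j + 2 : ℕ) : ℝ) ^ t := by
    intro j
    induction j with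
    | zero =>
      have h5 := h2 0 (Nat.zero_le _)
      have h6 := mul_le_mul_of_nonneg_left (h3 0) hA0
      linarith
    | succ j ih =>
      by_cases hj : j + 1 ≤ k0
      · have h5 := h2 (j + 1) hj
        have h6 := mul_le_mul_of_nonneg_left (h3 (j + 1)) hA0
        linarith
      · have hjk : (k0 : ℝ) ≤ ((j + 2 : ℕ) : ℝ) := by exact_mod_cast (by omega : k0 ≤ j + 2)
        have hk : (0 : ℝ) < ((j + 2 : ℕ) : ℝ) := by positivity
        have h5 := key τ t K hτ ht ((j + 2 : ℕ) : ℝ) hk (by nlinarith)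
        have h6 := hrec (j + 2) (by omega)
        have h7 : 0 ≤ 1 + τ / ((j + 2 : ℕ) : ℝ) + K / ((j + 2 : ℕ) : ℝ) ^ 2 := by positivity
        have h8 := mul_le_mul_of_nonneg_left ih h7
        have h9 : 0 ≤ ((j + 2 : ℕ) : ℝ) ^ (t - 1) := (Real.rpow_pos_of_pos hk _).le
        have h10 : C ≤ A * ((t - τ) / 2) := by
          have e1 : 2 * C / (t - τ) ≤ A := by rw [hA]; linarith
          rw [div_le_iff₀ hη0] at e1
          linarith
        have h11 := mul_le_mul_of_nonneg_right h10 h9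
        have h12 := mul_le_mul_of_nonneg_left h5 hA0
        have e2 : ((j + 1 + 2 : ℕ) : ℝ) = ((j + 2 : ℕ) : ℝ) + 1 := by push_cast; ring
        rw [e2]
        have e3 : j + 1 + 2 = j + 2 + 1 := by omega
        rw [e3]
        calc u (j + 2 + 1) ≤ (1 + τ / ((j + 2 : ℕ) : ℝ) + K / ((j + 2 : ℕ) : ℝ) ^ 2) * u (j + 2) +
              C * ((j + 2 : ℕ) : ℝ) ^ (t - 1) := h6
          _ ≤ (1 + τ / ((j + 2 : ℕ) : ℝ) + K / ((j + 2 : ℕ) : ℝ) ^ 2) *
                (A * ((j + 2 : ℕ) : ℝ) ^ t) + A * ((t - τ) / 2) * ((j + 2 : ℕ) : ℝ) ^ (t - 1) := by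
              linarith
          _ = A * ((1 + τ / ((j + 2 : ℕ) : ℝ) + K / ((j + 2 : ℕ) : ℝ) ^ 2) *
                ((j + 2 : ℕ) : ℝ) ^ t + (t - τ) / 2 * ((j + 2 : ℕ) : ℝ) ^ (t - 1)) := by ring
          _ ≤ A * (((j + 2 : ℕ) : ℝ) + 1) ^ t := h12
  intro k hk
  obtain ⟨j, rfl⟩ : ∃ j, k = j + 2 := ⟨k - 2, by omega⟩
  exact h4 j

end Pool.Agent.H675.TA.RC
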