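import Pool.Agent.H629.TA.Stm

/-! Project TA (helper629): S_RV (helper675). -/

set_option autoImplicit false

namespace Pool.Agent.H675.TA.RV

open Finset Pool.Agent.H629.TA

theorem t_RV : S_RC → S_RV := by
  intro h τ t K C hτ ht hK hC
  obtain ⟨η, hη⟩ : ∃ η, η = (t - τ) / 2 := ⟨_, rfl⟩
  have hη0 : 0 < η := by rw [hη]; linarith
  obtain ⟨K1, hK1⟩ : ∃ K1, K1 = K + η * τ + η * K := ⟨_, rfl⟩
  obtain ⟨C1, hC1⟩ : ∃ C1, C1 = C + K ^ 2 * C * (1 + 1 / η) := ⟨_, rfl⟩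
  have hK10 : 0 ≤ K1 := by rw [hK1]; positivity
  have hC10 : 0 ≤ C1 := by rw [hC1]; positivity
  obtain ⟨C', hC', hmain⟩ := h (τ + η) t K1 C1 (by linarith) (by rw [hη]; linarith) hK10 hC10
  refine ⟨C', hC', ?_⟩
  intro u v a b hu hv hu2 hvk ha hb hrec
  refine hmain u hu ?_ ?_
  · have : 0 ≤ K ^ 2 * C * (1 + 1 / η) := by positivity
    rw [hC1]
    linarith
  intro k hk
  have hk0 : (0 : ℝ) < k := by exact_mod_cast (by omega : 0 < k)
  have hk1 : (1 : ℝ) ≤ k := by exact_mod_cast (by omega : 1 ≤ k)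
  obtain ⟨ha0, ha2⟩ := ha k hk
  obtain ⟨hb0, hb1⟩ := hb k hk
  have hvk' := hvk k hk
  have hs1 := Real.sq_sqrt (hu k)
  have hs2 := Real.sq_sqrt (hv k)
  refine (hrec k hk).trans ?_
  obtain ⟨y, hy⟩ : ∃ y : ℝ, y = 1 / (k : ℝ) := ⟨_, rfl⟩
  have hy0 : 0 < y := by rw [hy]; positivity
  have hy1 : y ≤ 1 := by rw [hy, div_le_one hk0]; exact hk1
  have hyk : y * k = 1 := by rw [hy]; field_simp
  have e1 : τ / (k : ℝ) = τ * y := by rw [hy]; ring
  have e2 : K / (k : ℝ) ^ 2 = K * y ^ 2 := by rw [hy]; ring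
  have e3 : (τ + η) / (k : ℝ) = (τ + η) * y := by rw [hy]; ring
  have e4 : K1 / (k : ℝ) ^ 2 = K1 * y ^ 2 := by rw [hy]; ring
  have e5 : K / (k : ℝ) = K * y := by rw [hy]; ring
  rw [e1, e2] at ha2
  rw [e5] at hb1
  rw [e3, e4]
  have hkt : 0 < (k : ℝ) ^ t := Real.rpow_pos_of_pos hk0 t
  have e6 : (k : ℝ) ^ (t - 1) = (k : ℝ) ^ t * y := by
    rw [Real.rpow_sub_one hk0.ne', hy]
    ring
  -- the square
  have hsq : (a k * Real.sqrt (u k) + b k * Real.sqrt (v k)) ^ 2 ≤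
      (1 + η * y) * (a k ^ 2 * u k) + (1 + k / η) * (b k ^ 2 * v k) := by
    have e7 : (1 + η * y) * (a k ^ 2 * u k) + (1 + k / η) * (b k ^ 2 * v k) -
        (a k * Real.sqrt (u k) + b k * Real.sqrt (v k)) ^ 2 =
        η * y * (a k * Real.sqrt (u k) - k / η * (b k * Real.sqrt (v k))) ^ 2 := by
      have e8 : η * y * (k / η) = 1 := by
        field_simp
        linarith
      have e9 : η * y * (k / η) ^ 2 = k / η := by
        calc η * y * (k / η) ^ 2 = (η * y * (k / η)) * (k / η) := by ring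
          _ = k / η := by rw [e8, one_mul]
      calc _ = (1 + η * y) * (a k ^ 2 * Real.sqrt (u k) ^ 2) +
            (1 + k / η) * (b k ^ 2 * Real.sqrt (v k) ^ 2) -
            (a k * Real.sqrt (u k) + b k * Real.sqrt (v k)) ^ 2 := by rw [hs1, hs2]
        _ = η * y * (a k * Real.sqrt (u k)) ^ 2 - 2 * 1 * (a k * Real.sqrt (u k)) *
            (b k * Real.sqrt (v k)) + (k / η) * (b k * Real.sqrt (v k)) ^ 2 := by ring
        _ = η * y * (a k * Real.sqrt (u k)) ^ 2 - 2 * (η * y * (k / η)) * (a k * Real.sqrt (u k)) *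
            (b k * Real.sqrt (v k)) + (η * y * (k / η) ^ 2) * (b k * Real.sqrt (v k)) ^ 2 := by
            rw [e8, e9]
        _ = _ := by ring
    have : 0 ≤ η * y * (a k * Real.sqrt (u k) - k / η * (b k * Real.sqrt (v k))) ^ 2 := by
      positivity
    linarith
  have h1 : (1 + η * y) * (a k ^ 2 * u k) ≤ (1 + (τ + η) * y + K1 * y ^ 2) * u k := by
    have h2 : (1 + η * y) * a k ^ 2 ≤ 1 + (τ + η) * y + K1 * y ^ 2 := by
      calc (1 + η * y) * a k ^ 2 ≤ (1 + η * y) * (1 + τ * y + K * y ^ 2) :=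
            mul_le_mul_of_nonneg_left ha2 (by positivity)
        _ = 1 + (τ + η) * y + (K + η * τ) * y ^ 2 + η * K * y ^ 2 * y := by ring
        _ ≤ 1 + (τ + η) * y + (K + η * τ) * y ^ 2 + η * K * y ^ 2 * 1 := by
            have : 0 ≤ η * K * y ^ 2 := by positivity
            have := mul_le_mul_of_nonneg_left hy1 this
            linarith
        _ = 1 + (τ + η) * y + K1 * y ^ 2 := by rw [hK1]; ring
    calc (1 + η * y) * (a k ^ 2 * u k) = ((1 + η * y) * a k ^ 2) * u k := by ring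
      _ ≤ _ := mul_le_mul_of_nonneg_right h2 (hu k)
  have h3 : (1 + k / η) * (b k ^ 2 * v k) ≤ K ^ 2 * C * (1 + 1 / η) * ((k : ℝ) ^ t * y) := by
    have h4 : b k ^ 2 ≤ (K * y) ^ 2 := pow_le_pow_left₀ hb0 hb1 2
    have h5 : b k ^ 2 * v k ≤ (K * y) ^ 2 * (C * (k : ℝ) ^ t) :=
      mul_le_mul h4 hvk' (hv k) (by positivity)
    have h6 : (1 + k / η) * y ^ 2 ≤ (1 + 1 / η) * y := by
      have e8 : (1 + k / η) * y ^ 2 = y * y + y * (y * k) / η := by ring
      rw [e8, hyk]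
      have : y * y ≤ y * 1 := mul_le_mul_of_nonneg_left hy1 hy0.le
      have e9 : (1 + 1 / η) * y = y * 1 + y * 1 / η := by ring
      rw [e9]
      linarith
    calc (1 + k / η) * (b k ^ 2 * v k) ≤ (1 + k / η) * ((K * y) ^ 2 * (C * (k : ℝ) ^ t)) :=
          mul_le_mul_of_nonneg_left h5 (by positivity)
      _ = (K ^ 2 * C * (k : ℝ) ^ t) * ((1 + k / η) * y ^ 2) := by ring
      _ ≤ (K ^ 2 * C * (k : ℝ) ^ t) * ((1 + 1 / η) * y) :=
          mul_le_mul_of_nonneg_left h6 (by positivity)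
      _ = _ := by ring
  rw [e6, hC1]
  calc (a k * Real.sqrt (u k) + b k * Real.sqrt (v k)) ^ 2 + C * ((k : ℝ) ^ t * y)
      ≤ (1 + (τ + η) * y + K1 * y ^ 2) * u k + K ^ 2 * C * (1 + 1 / η) * ((k : ℝ) ^ t * y) +
        C * ((k : ℝ) ^ t * y) := by linarith
    _ = _ := by ring

end Pool.Agent.H675.TA.RV
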