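import Pool.Agent.H629.TA.Stm

/-! Project TA (helper629): S_VS (helper675). -/

set_option autoImplicit false

namespace Pool.Agent.H675.TA.VS

open Finset Pool.Agent.H629.TA

theorem grow (e x : ℝ) (he : 0 < e) (hx : 1 ≤ x) : 2 * e / 3 * (1 / x) ≤ (x + 1) ^ e - x ^ e := by
  have hx0 : 0 < x := by linarith
  have h1 : (x + 1) ^ e = x ^ e * (1 + 1 / x) ^ e := by
    rw [← Real.mul_rpow hx0.le (by positivity)]
    congr 1
    field_simp
  have h2 : 1 ≤ x ^ e := Real.one_le_rpow hx he.le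
  have h3 : 1 + 2 * e / 3 * (1 / x) ≤ (1 + 1 / x) ^ e := by
    have h4 : 0 < 1 + 1 / x := by positivity
    rw [Real.rpow_def_of_pos h4]
    have h5 := Real.add_one_le_exp (Real.log (1 + 1 / x) * e)
    have h6 := Real.le_log_one_add_of_nonneg (x := 1 / x) (by positivity)
    have h7 : 2 / 3 * (1 / x) ≤ 2 * (1 / x) / (1 / x + 2) := by
      have h8 : 1 / x ≤ 1 := by
        rw [div_le_one hx0]
        exact hx
      rw [le_div_iff₀ (by positivity)]
      have h9 : 0 ≤ 1 / x := by positivity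
      nlinarith
    have h10 := mul_le_mul_of_nonneg_right (h7.trans h6) he.le
    linarith
  rw [h1]
  have h11 : 0 ≤ 2 * e / 3 * (1 / x) := by positivity
  nlinarith

theorem term (e C r x s : ℝ) (he : 0 < e) (hC : 0 ≤ C) (hr : 1 ≤ r) (hx : 1 ≤ x)
    (hs : s ≤ r * x ^ (e / 2)) :
    2 * s * (C * x ^ (-1 - e)) + C * x ^ (-1 - e) ≤ 3 * r * C * x ^ (-1 - e / 2) := by
  have hx0 : 0 < x := by linarith
  have h1 : x ^ (e / 2) * x ^ (-1 - e) = x ^ (-1 - e / 2) := by
    rw [← Real.rpow_add hx0]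
    congr 1
    ring
  have h2 : x ^ (-1 - e) ≤ x ^ (-1 - e / 2) :=
    Real.rpow_le_rpow_of_exponent_le hx (by linarith)
  have h3 : 0 < x ^ (-1 - e) := Real.rpow_pos_of_pos hx0 _
  have h4 : 0 < x ^ (-1 - e / 2) := Real.rpow_pos_of_pos hx0 _
  have h5 : 2 * s * (C * x ^ (-1 - e)) ≤ 2 * (r * x ^ (e / 2)) * (C * x ^ (-1 - e)) :=
    mul_le_mul_of_nonneg_right (by linarith) (by positivity)
  have h6 : 2 * (r * x ^ (e / 2)) * (C * x ^ (-1 - e)) = 2 * r * C * x ^ (-1 - e / 2) := by
    rw [← h1]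
    ring
  have h7 : C * x ^ (-1 - e) ≤ C * x ^ (-1 - e / 2) := mul_le_mul_of_nonneg_left h2 hC
  have h8 : 1 * (C * x ^ (-1 - e / 2)) ≤ r * (C * x ^ (-1 - e / 2)) :=
    mul_le_mul_of_nonneg_right hr (by positivity)
  linarith

theorem t_VS : S_VS := by
  intro c C e hc hC he
  obtain ⟨r, hr⟩ : ∃ r, r = 1 + 6 * C / e := ⟨_, rfl⟩
  have hr1 : 1 ≤ r := by
    have : 0 ≤ 6 * C / e := by positivity
    rw [hr]
    linarith
  have hr0 : 0 < r := by linarith
  have hsum : Summable (fun j : ℕ => ((j : ℝ) + 2) ^ (-1 - e / 2)) := by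
    have h := (Real.summable_nat_rpow (p := -1 - e / 2)).2 (by linarith)
    have h2 := (summable_nat_add_iff 2).2 h
    have h3 : (fun j : ℕ => ((j : ℝ) + 2) ^ (-1 - e / 2)) =
        fun n : ℕ => (((n + 2 : ℕ) : ℝ)) ^ (-1 - e / 2) := by
      funext j
      push_cast
      rfl
    rw [h3]
    exact h2
  have hpos : ∀ i : ℕ, (1 : ℝ) ≤ (i : ℝ) + 2 := by
    intro i
    have : (0 : ℝ) ≤ i := Nat.cast_nonneg i
    linarith
  have hterm0 : ∀ i : ℕ, 0 ≤ ((i : ℝ) + 2) ^ (-1 - e / 2) := fun i =>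
    Real.rpow_nonneg (by linarith [hpos i]) _
  obtain ⟨S, hS⟩ : ∃ S, S = ∑' j : ℕ, ((j : ℝ) + 2) ^ (-1 - e / 2) := ⟨_, rfl⟩
  have hS0 : 0 ≤ S := by
    rw [hS]
    exact tsum_nonneg hterm0
  have hfin : ∀ i : ℕ, ∑ j ∈ range i, ((j : ℝ) + 2) ^ (-1 - e / 2) ≤ S := by
    intro i
    rw [hS]
    exact hsum.sum_le_tsum _ (fun j _ => hterm0 j)
  have hsc : 0 < Real.sqrt (c / 2) := Real.sqrt_pos.2 (by positivity)
  refine ⟨3 * r * C * S / Real.sqrt (c / 2) + 3 / c, by positivity, ?_⟩
  intro v mu la hv hv0 hmu0 hmu hrec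
  have hvb : ∀ i : ℕ, v i ≤ r ^ 2 * ((i : ℝ) + 2) ^ e := by
    intro i
    induction i with
    | zero =>
      rw [hv0]
      exact mul_nonneg (by positivity) (Real.rpow_nonneg (by linarith [hpos 0]) _)
    | succ i ih =>
      obtain ⟨x, hx⟩ : ∃ x : ℝ, x = (i : ℝ) + 2 := ⟨_, rfl⟩
      have hx1 : 1 ≤ x := by rw [hx]; exact hpos i
      have hx0 : 0 < x := by linarith
      have h1 := (abs_le.1 (hrec i)).2
      have h2 := (hmu i).2.2
      rw [← hx] at ih h1 h2
      have hs : Real.sqrt (v i) ≤ r * x ^ (e / 2) := by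
        rw [Real.sqrt_le_iff]
        refine ⟨mul_nonneg hr0.le (Real.rpow_nonneg hx0.le _), ?_⟩
        rw [mul_pow, ← Real.rpow_natCast (x ^ (e / 2)) 2, ← Real.rpow_mul hx0.le]
        have : e / 2 * ((2 : ℕ) : ℝ) = e := by push_cast; ring
        rw [this]
        exact ih
      have h3 := term e C r x _ he hC hr1 hx1 hs
      have h4 : x ^ (-1 - e / 2) ≤ 1 / x := by
        have : x ^ (-1 - e / 2) ≤ x ^ (-1 : ℝ) :=
          Real.rpow_le_rpow_of_exponent_le hx1 (by linarith)
        rw [Real.rpow_neg_one] at this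
        rwa [one_div]
      have h5 := grow e x he hx1
      have h6 : 3 * r * C * x ^ (-1 - e / 2) ≤ 3 * r * C * (1 / x) :=
        mul_le_mul_of_nonneg_left h4 (by positivity)
      have h7 : C + 3 * r * C ≤ r ^ 2 * (2 * e / 3) := by
        have h8 : 6 * C ≤ r * e := by
          have : r * e = e + 6 * C := by
            rw [hr]
            field_simp
          linarith
        have h9 : C ≤ C * r := le_mul_of_one_le_right hC hr1
        have h10 : r * (6 * C) ≤ r * (r * e) := mul_le_mul_of_nonneg_left h8 hr0.le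
        nlinarith
      have h11 := mul_le_mul_of_nonneg_right h7 (by positivity : 0 ≤ 1 / x)
      have h12 := mul_le_mul_of_nonneg_left h5 (by positivity : 0 ≤ r ^ 2)
      have h13 : C / x = C * (1 / x) := by ring
      have h14 : (((i + 1 : ℕ) : ℝ) + 2) = x + 1 := by
        rw [hx]
        push_cast
        ring
      rw [h14]
      rw [h13] at h2
      nlinarith
  have hdiff : ∀ i : ℕ, |v i - mu i| ≤
      3 * r * C * ∑ j ∈ range i, ((j : ℝ) + 2) ^ (-1 - e / 2) := by
    intro i
    induction i with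
    | zero =>
      rw [hv0, hmu0]
      simp
    | succ i ih =>
      have hx1 := hpos i
      have hx0 : (0 : ℝ) < (i : ℝ) + 2 := by linarith
      have hs : Real.sqrt (v i) ≤ r * ((i : ℝ) + 2) ^ (e / 2) := by
        rw [Real.sqrt_le_iff]
        refine ⟨mul_nonneg hr0.le (Real.rpow_nonneg hx0.le _), ?_⟩
        rw [mul_pow, ← Real.rpow_natCast (((i : ℝ) + 2) ^ (e / 2)) 2, ← Real.rpow_mul hx0.le]
        have : e / 2 * ((2 : ℕ) : ℝ) = e := by push_cast; ring
        rw [this]
        exact hvb i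
      have h3 := term e C r _ _ he hC hr1 hx1 hs
      have h4 := hrec i
      have h5 : v (i + 1) - mu (i + 1) = (v i - mu i) + (v (i + 1) - v i - la i) := by
        rw [(hmu i).1]
        ring
      rw [h5, sum_range_succ, mul_add]
      exact (abs_add_le _ _).trans (add_le_add ih (h4.trans h3))
  have hla0 : ∀ i : ℕ, 0 ≤ la i := fun i =>
    le_trans (by have := hpos i; positivity) (hmu i).2.1
  have hmu1 : ∀ i : ℕ, c / 2 ≤ mu (i + 1) := by
    intro i
    induction i with
    | zero =>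
      have h1 := (hmu 0).2.1
      rw [(hmu 0).1, hmu0]
      have h2 : c / (((0 : ℕ) : ℝ) + 2) = c / 2 := by norm_num
      rw [h2] at h1
      linarith
    | succ i ih =>
      rw [(hmu (i + 1)).1]
      have := hla0 (i + 1)
      linarith
  have hlog : ∀ i : ℕ, c * (Real.log ((i : ℝ) + 2) - Real.log 2) ≤ mu i := by
    intro i
    induction i with
    | zero =>
      rw [hmu0]
      simp
    | succ i ih =>
      have hx1 := hpos i
      have hx0 : (0 : ℝ) < (i : ℝ) + 2 := by linarith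
      have h1 : Real.log (((i + 1 : ℕ) : ℝ) + 2) ≤ Real.log ((i : ℝ) + 2) + 1 / ((i : ℝ) + 2) := by
        have h2 : (((i + 1 : ℕ) : ℝ) + 2) = ((i : ℝ) + 2) * (1 + 1 / ((i : ℝ) + 2)) := by
          push_cast
          field_simp
          ring
        rw [h2, Real.log_mul hx0.ne' (by positivity)]
        have h3 := Real.log_le_sub_one_of_pos (by positivity : 0 < 1 + 1 / ((i : ℝ) + 2))
        linarith
      rw [(hmu i).1]
      have h4 := (hmu i).2.1
      have h5 : c / ((i : ℝ) + 2) = c * (1 / ((i : ℝ) + 2)) := by ring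
      rw [h5] at h4
      have h6 := mul_le_mul_of_nonneg_left h1 hc.le
      linarith
  have hC2 : 0 ≤ 3 * r * C * S := by positivity
  have h3c : 0 < 3 / c := by positivity
  refine ⟨?_, ?_⟩
  · intro i
    rcases Nat.eq_zero_or_pos i with rfl | hi
    · rw [hv0, hmu0, sub_self, abs_zero]
      positivity
    · obtain ⟨j, rfl⟩ : ∃ j, i = j + 1 := ⟨i - 1, by omega⟩
      have h1 := hmu1 j
      have h2 : Real.sqrt (c / 2) ≤ Real.sqrt (mu (j + 1)) := Real.sqrt_le_sqrt h1
      have h3 : 0 ≤ mu (j + 1) := le_trans (by positivity) h1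
      have h4 : |Real.sqrt (v (j + 1)) - Real.sqrt (mu (j + 1))| * Real.sqrt (c / 2) ≤
          3 * r * C * S := by
        calc |Real.sqrt (v (j + 1)) - Real.sqrt (mu (j + 1))| * Real.sqrt (c / 2)
            ≤ |Real.sqrt (v (j + 1)) - Real.sqrt (mu (j + 1))| *
              (Real.sqrt (v (j + 1)) + Real.sqrt (mu (j + 1))) := by
              refine mul_le_mul_of_nonneg_left ?_ (abs_nonneg _)
              have := Real.sqrt_nonneg (v (j + 1))
              linarith
          _ = |(Real.sqrt (v (j + 1)) - Real.sqrt (mu (j + 1))) *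
              (Real.sqrt (v (j + 1)) + Real.sqrt (mu (j + 1)))| := by
              rw [abs_mul, abs_of_nonneg (add_nonneg (Real.sqrt_nonneg _) (Real.sqrt_nonneg _))]
          _ = |v (j + 1) - mu (j + 1)| := by
              congr 1
              have e1 := Real.sq_sqrt (hv (j + 1))
              have e2 := Real.sq_sqrt h3
              calc _ = Real.sqrt (v (j + 1)) ^ 2 - Real.sqrt (mu (j + 1)) ^ 2 := by ring
                _ = _ := by rw [e1, e2]
          _ ≤ 3 * r * C * ∑ j ∈ range (j + 1), ((j : ℝ) + 2) ^ (-1 - e / 2) := hdiff (j + 1)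
          _ ≤ 3 * r * C * S := mul_le_mul_of_nonneg_left (hfin _) (by positivity)
      rw [← le_div_iff₀ hsc] at h4
      linarith
  · intro i hi
    have h1 := hlog i
    have hx1 := hpos i
    have hx3 : (3 : ℝ) ≤ (i : ℝ) + 2 := by
      have : (1 : ℝ) ≤ i := by exact_mod_cast hi
      linarith
    have h2 : Real.log 2 ≤ 2 / 3 * Real.log ((i : ℝ) + 2) := by
      have h3 : Real.log 8 ≤ Real.log (((i : ℝ) + 2) ^ 2) :=
        Real.log_le_log (by norm_num) (by nlinarith)
      rw [Real.log_pow] at h3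
      have h4 : Real.log 8 = 3 * Real.log 2 := by
        rw [show (8 : ℝ) = 2 ^ 3 by norm_num, Real.log_pow]
        norm_num
      rw [h4] at h3
      push_cast at h3
      linarith
    have hlog0 : 0 ≤ Real.log ((i : ℝ) + 2) := Real.log_nonneg hx1
    have h5 : 1 / (3 * r * C * S / Real.sqrt (c / 2) + 3 / c) ≤ c / 3 := by
      have h6 : 3 / c ≤ 3 * r * C * S / Real.sqrt (c / 2) + 3 / c := by
        have : 0 ≤ 3 * r * C * S / Real.sqrt (c / 2) := by positivity
        linarith
      have h7 := one_div_le_one_div_of_le h3c h6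
      rwa [one_div_div] at h7
    have h8 := mul_le_mul_of_nonneg_right h5 hlog0
    have h9 : c / 3 * Real.log ((i : ℝ) + 2) ≤ c * (Real.log ((i : ℝ) + 2) - Real.log 2) := by
      have h10 := mul_le_mul_of_nonneg_left h2 hc.le
      linarith
    linarith

end Pool.Agent.H675.TA.VS
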